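import Mathlib

/-!
# Infinitely many `m` with a nonempty set of minimal `m`-Markoff triples of size divisible by 3
-/

namespace Pool.Agent.Results.MP_208885_nt.DivisibleByThree

/-- The set `𝒪(m)` of minimal `m`-Markoff triples: triples `(a,b,c)` of positive integers with
`a² + b² + c² = 3abc + m`, `a ≤ b ≤ c` and `3ab - c ≤ 0`. -/
def O (m : ℕ) : Set (ℕ × ℕ × ℕ) :=
  {t | 0 < t.1 ∧ 0 < t.2.1 ∧ 0 < t.2.2 ∧
    t.1 ^ 2 + t.2.1 ^ 2 + t.2.2 ^ 2 = 3 * t.1 * t.2.1 * t.2.2 + m ∧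
    t.1 ≤ t.2.1 ∧ t.2.1 ≤ t.2.2 ∧ 3 * t.1 * t.2.1 ≤ t.2.2}

/-- strictly increasing positive solutions of `x² + y² + z² + 3xyz = m` -/
def T (m : ℕ) : Set (ℕ × ℕ × ℕ) :=
  {t | 0 < t.1 ∧ t.1 < t.2.1 ∧ t.2.1 < t.2.2 ∧
    t.1 ^ 2 + t.2.1 ^ 2 + t.2.2 ^ 2 + 3 * t.1 * t.2.1 * t.2.2 = m}

def f1 (t : ℕ × ℕ × ℕ) : ℕ × ℕ × ℕ := (t.1, t.2.1, 3 * t.1 * t.2.1 + t.2.2)
def f2 (t : ℕ × ℕ × ℕ) : ℕ × ℕ × ℕ := (t.1, t.2.2, 3 * t.1 * t.2.2 + t.2.1)
def f3 (t : ℕ × ℕ × ℕ) : ℕ × ℕ × ℕ := (t.2.1, t.2.2, 3 * t.2.1 * t.2.2 + t.1)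

lemma f1_inj : Function.Injective f1 := by
  rintro ⟨x, y, z⟩ ⟨x', y', z'⟩ h
  simp only [f1, Prod.mk.injEq] at h
  obtain ⟨rfl, rfl, h⟩ := h
  simp only [Prod.mk.injEq, true_and]
  omega

lemma f2_inj : Function.Injective f2 := by
  rintro ⟨x, y, z⟩ ⟨x', y', z'⟩ h
  simp only [f2, Prod.mk.injEq] at h
  obtain ⟨rfl, rfl, h⟩ := h
  simp only [Prod.mk.injEq, true_and, and_true]
  omega

lemma f3_inj : Function.Injective f3 := by
  rintro ⟨x, y, z⟩ ⟨x', y', z'⟩ h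
  simp only [f3, Prod.mk.injEq] at h
  obtain ⟨rfl, rfl, h⟩ := h
  simp only [Prod.mk.injEq, and_true]
  omega

lemma T_finite (m : ℕ) : (T m).Finite := by
  apply Set.Finite.subset ((Set.finite_Iic m).prod ((Set.finite_Iic m).prod (Set.finite_Iic m)))
  rintro ⟨x, y, z⟩ ⟨h0, h1, h2, h3⟩
  simp only at h0 h1 h2 h3
  have hz : z ≤ z ^ 2 := Nat.le_self_pow two_ne_zero z
  simp only [Set.mem_prod, Set.mem_Iic]
  have : z ≤ m := by
    rw [← h3]; nlinarith [Nat.zero_le (3 * x * y * z), sq_nonneg x, sq_nonneg y]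
  omega

/-- If `m` is not a sum of two squares and not of the form `2u²+v²+3u²v`, then `𝒪(m)` is the
disjoint union of three copies of `T m`. -/
lemma O_eq {m : ℕ} (h2 : ∀ a b : ℕ, a ^ 2 + b ^ 2 ≠ m)
    (h3 : ∀ u v : ℕ, 0 < u → 0 < v → 2 * u ^ 2 + v ^ 2 + 3 * u ^ 2 * v ≠ m) :
    O m = f1 '' T m ∪ (f2 '' T m ∪ f3 '' T m) := by
  ext ⟨a, b, c⟩
  constructor
  · rintro ⟨ha, hb, hc, heq, hab, hbc, hle⟩
    simp only at ha hb hc heq hab hbc hle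
    obtain ⟨f, rfl⟩ := Nat.exists_eq_add_of_le hle
    have heq' : a ^ 2 + b ^ 2 + f ^ 2 + 3 * a * b * f = m := by
      have : a ^ 2 + b ^ 2 + (3 * a * b + f) ^ 2
          = 3 * a * b * (3 * a * b + f) + (a ^ 2 + b ^ 2 + f ^ 2 + 3 * a * b * f) := by ring
      omega
    have hf : 0 < f := by
      rcases Nat.eq_zero_or_pos f with rfl | h
      · exfalso; apply h2 a b; simpa using heq'
      · exact h
    have hab' : a < b := by
      rcases eq_or_lt_of_le hab with rfl | h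
      · exfalso; apply h3 a f ha hf; rw [← heq']; ring
      · exact h
    rcases lt_trichotomy f b with h | rfl | h
    · rcases lt_trichotomy f a with h' | rfl | h'
      · right; right
        exact ⟨(f, a, b), ⟨hf, h', hab', by rw [← heq']; simp only; ring⟩, rfl⟩
      · exfalso; apply h3 f b hf hb; rw [← heq']; ring
      · right; left
        exact ⟨(a, f, b), ⟨ha, h', h, by rw [← heq']; simp only; ring⟩, rfl⟩
    · exfalso; apply h3 f a hf ha; rw [← heq']; ring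
    · left
      exact ⟨(a, b, f), ⟨ha, hab', h, by rw [← heq']⟩, rfl⟩
  · rintro (⟨⟨x, y, z⟩, ⟨h0, h1, h2, h3⟩, h⟩ | ⟨⟨x, y, z⟩, ⟨h0, h1, h2, h3⟩, h⟩ |
      ⟨⟨x, y, z⟩, ⟨h0, h1, h2, h3⟩, h⟩)
    all_goals simp only at h0 h1 h2 h3
    · simp only [f1, Prod.mk.injEq] at h
      obtain ⟨rfl, rfl, rfl⟩ := h
      refine ⟨h0, by simp only; omega, by simp only; omega, ?_, h1.le, ?_, ?_⟩
      · simp only; rw [← h3]; ring
      · simp only; omega
      · simp only; omega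
    · simp only [f2, Prod.mk.injEq] at h
      obtain ⟨rfl, rfl, rfl⟩ := h
      refine ⟨h0, by simp only; omega, by simp only; omega, ?_, by simp only; omega, ?_, ?_⟩
      · simp only; rw [← h3]; ring
      · simp only; nlinarith
      · simp only; omega
    · simp only [f3, Prod.mk.injEq] at h
      obtain ⟨rfl, rfl, rfl⟩ := h
      refine ⟨by simp only; omega, by simp only; omega, by simp only; omega, ?_,
        by simp only; omega, ?_, ?_⟩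
      · simp only; rw [← h3]; ring
      · simp only; nlinarith
      · simp only; omega

lemma disj12 (m : ℕ) : Disjoint (f1 '' T m) (f2 '' T m ∪ f3 '' T m) := by
  rw [Set.disjoint_left]
  rintro _ ⟨⟨x, y, z⟩, ⟨h0, h1, h2, h3⟩, rfl⟩ (⟨⟨x', y', z'⟩, ⟨h0', h1', h2', h3'⟩, h⟩ |
    ⟨⟨x', y', z'⟩, ⟨h0', h1', h2', h3'⟩, h⟩)
  · simp only [f1, f2, Prod.mk.injEq] at *
    obtain ⟨rfl, rfl, h⟩ := h
    omega
  · simp only [f1, f3, Prod.mk.injEq] at *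
    obtain ⟨rfl, rfl, h⟩ := h
    omega

lemma disj23 (m : ℕ) : Disjoint (f2 '' T m) (f3 '' T m) := by
  rw [Set.disjoint_left]
  rintro _ ⟨⟨x, y, z⟩, ⟨h0, h1, h2, h3⟩, rfl⟩ ⟨⟨x', y', z'⟩, ⟨h0', h1', h2', h3'⟩, h⟩
  simp only [f2, f3, Prod.mk.injEq] at *
  obtain ⟨rfl, rfl, h⟩ := h
  omega

lemma O_card {m : ℕ} (h2 : ∀ a b : ℕ, a ^ 2 + b ^ 2 ≠ m)
    (h3 : ∀ u v : ℕ, 0 < u → 0 < v → 2 * u ^ 2 + v ^ 2 + 3 * u ^ 2 * v ≠ m) :
    (O m).Finite ∧ (O m).ncard = 3 * (T m).ncard := by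
  have hT := T_finite m
  rw [O_eq h2 h3]
  refine ⟨(hT.image _).union ((hT.image _).union (hT.image _)), ?_⟩
  rw [Set.ncard_union_eq (disj12 m) (hT.image _) ((hT.image _).union (hT.image _)),
    Set.ncard_union_eq (disj23 m) (hT.image _) (hT.image _),
    Set.ncard_image_of_injective _ f1_inj, Set.ncard_image_of_injective _ f2_inj,
    Set.ncard_image_of_injective _ f3_inj]
  ring

/-! ### The counting argument -/

/-- `w = 2z + 3y` for `y = 9i+1`, `z = 9j+1` -/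
def w (p : ℕ × ℕ) : ℕ := 2 * (9 * p.2 + 1) + 3 * (9 * p.1 + 1)

/-- `g = 1 + y² + z² + 3yz` for `y = 9i+1`, `z = 9j+1` -/
def g (p : ℕ × ℕ) : ℕ :=
  1 + (9 * p.1 + 1) ^ 2 + (9 * p.2 + 1) ^ 2 + 3 * (9 * p.1 + 1) * (9 * p.2 + 1)

lemma g_w (p : ℕ × ℕ) : 4 * (g p : ℤ) + 5 * (9 * (p.1 : ℤ) + 1) ^ 2 = (w p : ℤ) ^ 2 + 4 := by
  simp only [g, w]; push_cast; ring

/-- the box of pairs -/
def P (s : ℕ) : Finset (ℕ × ℕ) := Finset.range (s ^ 8) ×ˢ Finset.Ico (6 * s ^ 12) (12 * s ^ 12)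

lemma card_P (s : ℕ) : (P s).card = 6 * s ^ 20 := by
  simp only [P, Finset.card_product, Finset.card_range, Nat.card_Ico]
  have : 12 * s ^ 12 - 6 * s ^ 12 = 6 * s ^ 12 := by omega
  rw [this]; ring

open Classical in
/-- the pairs whose value is also taken at a pair with larger `w` -/
noncomputable def P1 (s : ℕ) : Finset (ℕ × ℕ) :=
  (P s).filter (fun p => ∃ q ∈ P s, g q = g p ∧ w p < w q)

lemma mem_P1 {s : ℕ} {p : ℕ × ℕ} (h : p ∈ P1 s) : p ∈ P s ∧ ∃ q ∈ P s, g q = g p ∧ w p < w q := by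
  simpa [P1] using h

lemma card_P1 (s : ℕ) (hs : 0 < s) : (P1 s).card ≤ 2 * s ^ 20 := by
  classical
  have hch : ∀ p : ℕ × ℕ, ∃ q : ℕ × ℕ, p ∈ P1 s → (q ∈ P s ∧ g q = g p ∧ w p < w q) := by
    intro p
    by_cases hp : p ∈ P1 s
    · obtain ⟨_, q, hq⟩ := mem_P1 hp
      exact ⟨q, fun _ => hq⟩
    · exact ⟨p, fun h => absurd h hp⟩
  choose q hq using hch
  have hcard : (Finset.range (2 * s ^ 4) ×ˢ (Finset.range (s ^ 8) ×ˢ Finset.range (s ^ 8))).card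
      = 2 * s ^ 20 := by
    simp only [Finset.card_product, Finset.card_range]; ring
  rw [← hcard]
  have hs4 : 0 < s ^ 4 := by positivity
  apply Finset.card_le_card_of_injOn (fun p => (w (q p) - w p, p.1, (q p).1))
  · intro p hp
    have hp' : p ∈ P1 s := hp
    obtain ⟨hqP, hgq, hwq⟩ := hq p hp'
    have hpP := (mem_P1 hp').1
    simp only [P, Finset.mem_product, Finset.mem_range, Finset.mem_Ico] at hqP hpP
    simp only [Finset.coe_product, Finset.coe_range, Set.mem_prod, Set.mem_Iio]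
    refine ⟨?_, hpP.1, hqP.1⟩
    by_contra hcon
    have hcon' : 2 * s ^ 4 ≤ w (q p) - w p := not_lt.1 hcon
    have h1 := g_w p
    have h2 := g_w (q p)
    rw [hgq] at h2
    have h3 : ((w (q p) : ℤ) - w p) * ((w (q p) : ℤ) + w p)
        = 5 * ((9 * ((q p).1 : ℤ) + 1) ^ 2 - (9 * (p.1 : ℤ) + 1) ^ 2) := by
      linear_combination h1 - h2
    have h4 : (2 * (s : ℤ) ^ 4) ≤ (w (q p) : ℤ) - w p := by
      have : ((2 * s ^ 4 : ℕ) : ℤ) ≤ ((w (q p) - w p : ℕ) : ℤ) := by exact_mod_cast hcon'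
      rw [Nat.cast_sub hwq.le] at this
      push_cast at this
      exact this
    have h5 : (216 * (s : ℤ) ^ 12) ≤ (w (q p) : ℤ) + w p := by
      have e1 : 108 * s ^ 12 ≤ w (q p) := by simp only [w]; omega
      have e2 : 108 * s ^ 12 ≤ w p := by simp only [w]; omega
      have : 216 * s ^ 12 ≤ w (q p) + w p := by omega
      exact_mod_cast this
    have h6 : (9 * ((q p).1 : ℤ) + 1) ≤ 9 * (s : ℤ) ^ 8 := by
      have : 9 * (q p).1 + 1 ≤ 9 * s ^ 8 := by omega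
      exact_mod_cast this
    have h7 : (9 * ((q p).1 : ℤ) + 1) ^ 2 ≤ (9 * (s : ℤ) ^ 8) ^ 2 :=
      pow_le_pow_left₀ (by positivity) h6 2
    have h8 : (2 * (s : ℤ) ^ 4) * (216 * (s : ℤ) ^ 12)
        ≤ ((w (q p) : ℤ) - w p) * ((w (q p) : ℤ) + w p) :=
      mul_le_mul h4 h5 (by positivity) (le_trans (by positivity) h4)
    have h9 : (0 : ℤ) < (s : ℤ) ^ 16 := by positivity
    have h10 : (0 : ℤ) ≤ (9 * (p.1 : ℤ) + 1) ^ 2 := by positivity
    rw [h3] at h8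
    have h11 : (2 * (s : ℤ) ^ 4) * (216 * (s : ℤ) ^ 12) = 432 * (s : ℤ) ^ 16 := by ring
    have h12 : (9 * (s : ℤ) ^ 8) ^ 2 = 81 * (s : ℤ) ^ 16 := by ring
    rw [h11] at h8
    rw [h12] at h7
    linarith
  · intro p hp p' hp' heq
    have hpm : p ∈ P1 s := hp
    have hpm' : p' ∈ P1 s := hp'
    obtain ⟨hqP, hgq, hwq⟩ := hq p hpm
    obtain ⟨hqP', hgq', hwq'⟩ := hq p' hpm'
    simp only [Prod.mk.injEq] at heq
    obtain ⟨e1, e2, e3⟩ := heq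
    have h1 := g_w p
    have h2 := g_w (q p)
    rw [hgq] at h2
    have h1' := g_w p'
    have h2' := g_w (q p')
    rw [hgq'] at h2'
    have h3 : ((w (q p) : ℤ) - w p) * ((w (q p) : ℤ) + w p)
        = 5 * ((9 * ((q p).1 : ℤ) + 1) ^ 2 - (9 * (p.1 : ℤ) + 1) ^ 2) := by
      linear_combination h1 - h2
    have h3' : ((w (q p') : ℤ) - w p') * ((w (q p') : ℤ) + w p')
        = 5 * ((9 * ((q p').1 : ℤ) + 1) ^ 2 - (9 * (p'.1 : ℤ) + 1) ^ 2) := by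
      linear_combination h1' - h2'
    have e1' : (w (q p) : ℤ) - w p = (w (q p') : ℤ) - w p' := by
      have := congrArg (Nat.cast : ℕ → ℤ) e1
      rwa [Nat.cast_sub hwq.le, Nat.cast_sub hwq'.le] at this
    have hpos : (0 : ℤ) < (w (q p) : ℤ) - w p := by
      have : (w p : ℤ) < w (q p) := by exact_mod_cast hwq
      linarith
    rw [← e2, ← e3, ← e1', ← h3] at h3'
    have h4 := mul_left_cancel₀ hpos.ne' h3'
    have h5 : (w p : ℤ) = w p' := by linarith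
    have h6 : w p = w p' := by exact_mod_cast h5
    simp only [w] at h6
    ext
    · exact e2
    · omega

/-- the finite set of bad pairs -/
def Bad (s : ℕ) : Finset (ℕ × ℕ) :=
  (Finset.range (88 * s ^ 12) ×ˢ Finset.range (s ^ 6 + 1)) ∪
  ((Finset.range (72 * s ^ 9) ×ˢ Finset.range (s ^ 10 + 1)) ∪
  (Finset.range (72 * s ^ 7) ×ˢ Finset.range (124 * s ^ 12)))

lemma card_Bad (s : ℕ) (hs : 3000 ≤ s) : (Bad s).card < 4 * s ^ 20 := by
  have h1 : (Bad s).card ≤ 88 * s ^ 12 * (s ^ 6 + 1) + (72 * s ^ 9 * (s ^ 10 + 1)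
      + 72 * s ^ 7 * (124 * s ^ 12)) := by
    unfold Bad
    refine (Finset.card_union_le _ _).trans ?_
    refine Nat.add_le_add ?_ ((Finset.card_union_le _ _).trans ?_)
    · simp
    · simp
  have hp : 0 < s := by omega
  have a1 : s ^ 12 ≤ s ^ 19 := Nat.pow_le_pow_right hp (by norm_num)
  have a2 : s ^ 18 ≤ s ^ 19 := Nat.pow_le_pow_right hp (by norm_num)
  have a3 : s ^ 9 ≤ s ^ 19 := Nat.pow_le_pow_right hp (by norm_num)
  have a4 : 3000 * s ^ 19 ≤ s ^ 20 := by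
    rw [pow_succ s 19, mul_comm (s ^ 19) s]; exact Nat.mul_le_mul_right _ hs
  have a5 : 0 < s ^ 19 := by positivity
  have e1 : 88 * s ^ 12 * (s ^ 6 + 1) + (72 * s ^ 9 * (s ^ 10 + 1)
      + 72 * s ^ 7 * (124 * s ^ 12)) = 88 * s ^ 18 + 88 * s ^ 12 + 72 * s ^ 19 + 72 * s ^ 9
      + 8928 * s ^ 19 := by ring
  rw [e1] at h1
  omega

lemma g_le {s : ℕ} (hs : 0 < s) {p : ℕ × ℕ} (hp : p ∈ P s) : g p ≤ 15000 * s ^ 24 := by
  simp only [P, Finset.mem_product, Finset.mem_range, Finset.mem_Ico] at hp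
  obtain ⟨h1, h2, h3⟩ := hp
  have e1 : 9 * p.1 + 1 ≤ 9 * s ^ 8 := by omega
  have e2 : 9 * p.2 + 1 ≤ 108 * s ^ 12 := by omega
  have e3 : (9 * p.1 + 1) ^ 2 ≤ (9 * s ^ 8) ^ 2 := Nat.pow_le_pow_left e1 2
  have e4 : (9 * p.2 + 1) ^ 2 ≤ (108 * s ^ 12) ^ 2 := Nat.pow_le_pow_left e2 2
  have e5 : (9 * p.1 + 1) * (9 * p.2 + 1) ≤ (9 * s ^ 8) * (108 * s ^ 12) := Nat.mul_le_mul e1 e2
  have a1 : s ^ 16 ≤ s ^ 24 := Nat.pow_le_pow_right hs (by norm_num)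
  have a2 : s ^ 20 ≤ s ^ 24 := Nat.pow_le_pow_right hs (by norm_num)
  have a3 : 1 ≤ s ^ 24 := Nat.one_le_pow _ _ hs
  have b3 : (9 * s ^ 8) ^ 2 = 81 * s ^ 16 := by ring
  have b4 : (108 * s ^ 12) ^ 2 = 11664 * s ^ 24 := by ring
  have b5 : (9 * s ^ 8) * (108 * s ^ 12) = 972 * s ^ 20 := by ring
  have b6 : g p = 1 + (9 * p.1 + 1) ^ 2 + (9 * p.2 + 1) ^ 2
      + 3 * ((9 * p.1 + 1) * (9 * p.2 + 1)) := by simp only [g]; ring
  rw [b6]
  omega

lemma bad_mem {s : ℕ} (hs : 0 < s) {u v : ℕ}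
    (h : 2 * u ^ 2 + v ^ 2 + 3 * u ^ 2 * v ≤ 15000 * s ^ 24) : (u, v) ∈ Bad s := by
  have hp : 0 < s ^ 24 := by positivity
  have hv : v < 124 * s ^ 12 := by
    by_contra hcon
    have h1 : (124 * s ^ 12) ^ 2 ≤ v ^ 2 := Nat.pow_le_pow_left (not_lt.1 hcon) 2
    have h2 : (124 * s ^ 12) ^ 2 = 15376 * s ^ 24 := by ring
    rw [h2] at h1
    have : 0 ≤ 3 * u ^ 2 * v := Nat.zero_le _
    omega
  have hu : u < 88 * s ^ 12 := by
    by_contra hcon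
    have h1 : (88 * s ^ 12) ^ 2 ≤ u ^ 2 := Nat.pow_le_pow_left (not_lt.1 hcon) 2
    have h2 : (88 * s ^ 12) ^ 2 = 7744 * s ^ 24 := by ring
    rw [h2] at h1
    have : 0 ≤ 3 * u ^ 2 * v := Nat.zero_le _
    omega
  simp only [Bad, Finset.mem_union, Finset.mem_product, Finset.mem_range]
  by_cases h6 : v < s ^ 6 + 1
  · exact Or.inl ⟨hu, h6⟩
  by_cases h10 : v < s ^ 10 + 1
  · refine Or.inr (Or.inl ⟨?_, h10⟩)
    by_contra hcon
    have h1 : (72 * s ^ 9) ^ 2 ≤ u ^ 2 := Nat.pow_le_pow_left (not_lt.1 hcon) 2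
    have h2 : (72 * s ^ 9) ^ 2 * s ^ 6 ≤ u ^ 2 * v := Nat.mul_le_mul h1 (by omega)
    have h3 : (72 * s ^ 9) ^ 2 * s ^ 6 = 5184 * s ^ 24 := by ring
    rw [h3] at h2
    have h4 : 3 * u ^ 2 * v = 3 * (u ^ 2 * v) := by ring
    rw [h4] at h
    omega
  · refine Or.inr (Or.inr ⟨?_, hv⟩)
    by_contra hcon
    have h1 : (72 * s ^ 7) ^ 2 ≤ u ^ 2 := Nat.pow_le_pow_left (not_lt.1 hcon) 2
    have h2 : (72 * s ^ 7) ^ 2 * s ^ 10 ≤ u ^ 2 * v := Nat.mul_le_mul h1 (by omega)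
    have h3 : (72 * s ^ 7) ^ 2 * s ^ 10 = 5184 * s ^ 24 := by ring
    rw [h3] at h2
    have h4 : 3 * u ^ 2 * v = 3 * (u ^ 2 * v) := by ring
    rw [h4] at h
    omega

/-- For large `s` some value of `g` on the box is not of the form `2u²+v²+3u²v`. -/
lemma exists_good (s : ℕ) (hs : 3000 ≤ s) :
    ∃ p ∈ P s, ∀ u v : ℕ, 0 < u → 0 < v → 2 * u ^ 2 + v ^ 2 + 3 * u ^ 2 * v ≠ g p := by
  classical
  have hp : 0 < s := by omega
  have hsub : P1 s ⊆ P s := fun p hp => (mem_P1 hp).1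
  have hinj : Set.InjOn g ((P s \ P1 s : Finset (ℕ × ℕ)) : Set (ℕ × ℕ)) := by
    intro p hp q hq heq
    simp only [Finset.coe_sdiff, Set.mem_sdiff, Finset.mem_coe] at hp hq
    have h1 : ¬ w p < w q := fun hlt => hp.2 (by
      simp only [P1, Finset.mem_filter]; exact ⟨hp.1, q, hq.1, heq.symm, hlt⟩)
    have h2 : ¬ w q < w p := fun hlt => hq.2 (by
      simp only [P1, Finset.mem_filter]; exact ⟨hq.1, p, hp.1, heq, hlt⟩)
    have h3 : w p = w q := le_antisymm (not_lt.1 h2) (not_lt.1 h1)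
    have e1 := g_w p
    have e2 := g_w q
    rw [heq, h3] at e1
    have h4 : (9 * (p.1 : ℤ) + 1) ^ 2 = (9 * (q.1 : ℤ) + 1) ^ 2 := by linarith
    have h5 : (9 * (p.1 : ℤ) + 1) = (9 * (q.1 : ℤ) + 1) :=
      (pow_left_inj₀ (by positivity) (by positivity) two_ne_zero).1 h4
    have h6 : p.1 = q.1 := by omega
    simp only [w] at h3
    ext
    · exact h6
    · omega
  have hcard : (Finset.image g (P s \ P1 s)).card = (P s \ P1 s).card :=
    Finset.card_image_of_injOn hinj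
  have hc2 : (P s \ P1 s).card = (P s).card - (P1 s).card := Finset.card_sdiff_of_subset hsub
  have hc3 := card_P1 s hp
  have hc4 := card_P s
  have hc5 := card_Bad s hs
  have hc6 : (Finset.image (fun t : ℕ × ℕ => 2 * t.1 ^ 2 + t.2 ^ 2 + 3 * t.1 ^ 2 * t.2)
      (Bad s)).card ≤ (Bad s).card := Finset.card_image_le
  obtain ⟨m, hm1, hm2⟩ := Finset.exists_mem_notMem_of_card_lt_card
    (s := Finset.image (fun t : ℕ × ℕ => 2 * t.1 ^ 2 + t.2 ^ 2 + 3 * t.1 ^ 2 * t.2) (Bad s))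
    (t := Finset.image g (P s \ P1 s)) (by omega)
  rw [Finset.mem_image] at hm1
  obtain ⟨p, hpm, rfl⟩ := hm1
  rw [Finset.mem_sdiff] at hpm
  refine ⟨p, hpm.1, ?_⟩
  intro u v hu hv heq
  apply hm2
  rw [Finset.mem_image]
  exact ⟨(u, v), bad_mem hp (by rw [heq]; exact g_le hp hpm.1), heq⟩

/-- There are infinitely many `m > 1` such that `𝒪(m)` is nonempty and (finite) of
cardinality divisible by `3`. -/
theorem result : {m : ℕ | 1 < m ∧ (O m).Nonempty ∧ (O m).Finite ∧ 3 ∣ (O m).ncard}.Infinite := by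
  apply Set.infinite_of_forall_exists_gt
  intro N
  obtain ⟨s, hs, hsN⟩ : ∃ s, 3000 ≤ s ∧ N < s := ⟨N + 3000, by omega, by omega⟩
  obtain ⟨p, hp, hgood⟩ := exists_good s hs
  have hlarge : s < g p := by
    simp only [P, Finset.mem_product, Finset.mem_range, Finset.mem_Ico] at hp
    have h1 : s ≤ s ^ 12 := Nat.le_self_pow (by norm_num) _
    have h2 : 9 * p.2 + 1 ≤ (9 * p.2 + 1) ^ 2 := Nat.le_self_pow (by norm_num) _
    have h3 : g p = 1 + (9 * p.1 + 1) ^ 2 + (9 * p.2 + 1) ^ 2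
      + 3 * ((9 * p.1 + 1) * (9 * p.2 + 1)) := by simp only [g]; ring
    omega
  have hmod : ∀ a b : ℕ, a ^ 2 + b ^ 2 ≠ g p := by
    intro a b hab
    have h1 := congrArg (Nat.cast : ℕ → ZMod 9) hab
    have h2 : ((g p : ℕ) : ZMod 9) = 6 := by
      have : g p = 9 * (9 * p.1 ^ 2 + 2 * p.1 + 9 * p.2 ^ 2 + 2 * p.2 + 27 * p.1 * p.2 + 3 * p.1
        + 3 * p.2) + 6 := by simp only [g]; ring
      rw [this]
      push_cast
      have h9 : (9 : ZMod 9) = 0 := by decide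
      rw [h9]; ring
    rw [h2] at h1
    push_cast at h1
    have h3 : ∀ x y : ZMod 9, x ^ 2 + y ^ 2 ≠ 6 := by decide
    exact h3 _ _ h1
  obtain ⟨hfin, hcard⟩ := O_card hmod hgood
  refine ⟨g p, ⟨by omega, ?_, hfin, ⟨_, hcard⟩⟩, by omega⟩
  refine ⟨(1, 9 * p.1 + 1, 3 * (9 * p.1 + 1) + (9 * p.2 + 1)), one_pos, ?_, ?_, ?_, ?_, ?_, ?_⟩
  · simp only; omega
  · simp only; omega
  · simp only [g]; ring
  · simp only; omega
  · simp only; omega
  · simp only; omega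

end Pool.Agent.Results.MP_208885_nt.DivisibleByThree
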